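import Pool.Agent.Helper86.AA.Final

/-!
# Many distinct digits in every base for the roots of almost all integer polynomials
-/

set_option autoImplicit false

/-- Let `D`, `m ≥ 2` be natural numbers and `θ > log (m - 1) / log m`. There are `M` and `C` such that for every
`H ≥ 1` there are at most `C H ^ (D + θ)` nonzero integer polynomials `P` of degree at most `D` with coefficients in
`[-H, H]` (out of the `(2 H + 1) ^ (D + 1)` such polynomials) that have a real irrational root `ξ` for which, in some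
base `b ≥ 2`, the first `M + ⌊log_b H⌋` digits of `ξ` after the point take fewer than `min b m` distinct values. -/
theorem Pool.Agent.Results.MP_1f559e_nt.AlmostAllNumbers.result (D m : ℕ) (hm : 2 ≤ m) (θ : ℝ)
    (hθ : Real.log ((m : ℝ) - 1) / Real.log m < θ) :
    ∃ (M : ℕ) (C : ℝ), ∀ H : ℕ, 1 ≤ H →
      {P : Polynomial ℤ | P ≠ 0 ∧ P.natDegree ≤ D ∧ (∀ i, |P.coeff i| ≤ (H : ℤ)) ∧
        ∃ ξ : ℝ, Irrational ξ ∧ Polynomial.aeval ξ P = 0 ∧ ∃ b : ℕ, 2 ≤ b ∧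
          ((Finset.range (M + Nat.log b H)).image fun i : ℕ =>
            ⌊ξ * (b : ℝ) ^ (i + 1)⌋ - (b : ℤ) * ⌊ξ * (b : ℝ) ^ i⌋).card < min b m}.Finite ∧
      ({P : Polynomial ℤ | P ≠ 0 ∧ P.natDegree ≤ D ∧ (∀ i, |P.coeff i| ≤ (H : ℤ)) ∧
        ∃ ξ : ℝ, Irrational ξ ∧ Polynomial.aeval ξ P = 0 ∧ ∃ b : ℕ, 2 ≤ b ∧
          ((Finset.range (M + Nat.log b H)).image fun i : ℕ =>
            ⌊ξ * (b : ℝ) ^ (i + 1)⌋ - (b : ℤ) * ⌊ξ * (b : ℝ) ^ i⌋).card < min b m}.ncard : ℝ)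
        ≤ C * (H : ℝ) ^ ((D : ℝ) + θ) :=
  Pool.Agent.Helper86.AA.final D m hm θ hθ
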