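import Pool.Agent.Helper9.DG.Three

/-!
# Three distinct digits in the expansions of algebraic irrationals: an effective theorem
-/

set_option autoImplicit false

/-- Let `D ≥ 2`, `w ≥ 2 D` and `b ≥ w ^ (200 D ^ 4)` be integers, and let `ξ` be a real irrational root of a nonzero
integer polynomial of degree at most `D` with coefficients at most `e ^ w` in absolute value. The first `b` base `b`
digits of `ξ` after the point do not lie in an arithmetic progression `c, c + h, ..., c + w h`, and in particular they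
take at least three distinct values. -/
theorem Pool.Agent.Results.MP_1f559e_nt.EffectiveDigits.result (D w b : ℕ) (hD : 2 ≤ D)
    (hw : 2 * D ≤ w) (hb : w ^ (200 * D ^ 4) ≤ b) (ξ : ℝ) (hξ : Irrational ξ) (P : Polynomial ℤ)
    (hP : P ≠ 0) (hPD : P.natDegree ≤ D) (hPc : ∀ i, |(P.coeff i : ℝ)| ≤ Real.exp w)
    (hPξ : Polynomial.aeval ξ P = 0) :
    (∀ c h : ℤ, ∃ i < b, ∀ e : ℕ, e ≤ w →
      ⌊ξ * (b : ℝ) ^ (i + 1)⌋ - (b : ℤ) * ⌊ξ * (b : ℝ) ^ i⌋ ≠ c + h * e) ∧
    3 ≤ ((Finset.range b).image fun i : ℕ =>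
      ⌊ξ * (b : ℝ) ^ (i + 1)⌋ - (b : ℤ) * ⌊ξ * (b : ℝ) ^ i⌋).card :=
  ⟨fun c h => Pool.Agent.Helper9.DG.digits_not_in_progression D w b hD hw hb ξ hξ P hP hPD hPc hPξ
    c h, Pool.Agent.Helper9.DG.three_digits D w b hD hw hb ξ hξ P hP hPD hPc hPξ⟩
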