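import Pool.Agent.Helper86.NF.Main

/-!
# Many distinct digits in every base for almost all integer combinations of algebraic numbers
-/

set_option autoImplicit false

/-- Let `ω i` (`i < r`) be real algebraic numbers, `ω i0` irrational and a root of a nonzero integer polynomial of
degree at most `D`, `D ≥ 2`, let `m ≥ 2` and `δ < (1 - log (m - 1) / log m) / (D - 1)`. There are `M` and `C` such that
for every `H ≥ 1`, for all but at most `C H ^ (r - δ)` of the `(2 H + 1) ^ r` integer vectors `a` with entries in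
`[-H, H]`, the number `x = ∑ a i * ω i` is irrational and, in every base `b ≥ 2`, the first `M + ⌊log_b H⌋` digits of
`x` after the point take at least `min b m` distinct values. -/
theorem Pool.Agent.Results.MP_1f559e_nt.FieldElements.result (r : ℕ) (ω : Fin r → ℝ)
    (halg : ∀ i, IsAlgebraic ℚ (ω i)) (i0 : Fin r) (hirr : Irrational (ω i0)) (D : ℕ) (hD : 2 ≤ D)
    (P : Polynomial ℤ) (hP : P ≠ 0) (hPD : P.natDegree ≤ D) (hPω : Polynomial.aeval (ω i0) P = 0)
    (m : ℕ) (hm : 2 ≤ m) (δ : ℝ)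
    (hδ : δ < (1 - Real.log ((m : ℝ) - 1) / Real.log m) / ((D : ℝ) - 1)) :
    ∃ (M : ℕ) (C : ℝ), ∀ H : ℕ, 1 ≤ H →
      ({a : Fin r → ℤ | (∀ i, |a i| ≤ (H : ℤ)) ∧
        ¬ (Irrational (∑ i, (a i : ℝ) * ω i) ∧ ∀ b : ℕ, 2 ≤ b →
          min b m ≤ ((Finset.range (M + Nat.log b H)).image fun j : ℕ =>
            ⌊(∑ i, (a i : ℝ) * ω i) * (b : ℝ) ^ (j + 1)⌋
              - (b : ℤ) * ⌊(∑ i, (a i : ℝ) * ω i) * (b : ℝ) ^ j⌋).card)}.ncard : ℝ)
        ≤ C * (H : ℝ) ^ ((r : ℝ) - δ) :=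
  Pool.Agent.Helper86.NF.main ω halg i0 hirr hP D hD hPD hPω m hm δ hδ
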