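import Pool.Agent.Helper2.Digits.Final

/-!
# Many distinct digits in large bases
-/

set_option autoImplicit false

/-- For all `D`, `κ`, `m` there is `M` such that for every base `b ≥ M` and every real irrational
root `ξ` of a nonzero integer polynomial of degree at most `D` and coefficients at most `b ^ κ` in
absolute value, the first `M` base `b` digits of `ξ` after the point take at least `m` distinct
values. -/
theorem Pool.Agent.Results.MP_1f559e_nt.ManyDigits.result (D κ m : ℕ) :
    ∃ M : ℕ, ∀ b : ℕ, M ≤ b → ∀ ξ : ℝ, Irrational ξ →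
      ∀ P : Polynomial ℤ, P ≠ 0 → P.natDegree ≤ D → (∀ i, |P.coeff i| ≤ (b : ℤ) ^ κ) →
        Polynomial.aeval ξ P = 0 →
          m ≤ ((Finset.range M).image fun i : ℕ =>
            ⌊ξ * (b : ℝ) ^ (i + 1)⌋ - (b : ℤ) * ⌊ξ * (b : ℝ) ^ i⌋).card :=
  Pool.Agent.Helper2.Digits.many_digits D κ m
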